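import Pool.Agent.Helper17.OD.GoalsCV

/-! Packet LM0 (limit lemmas). -/

set_option autoImplicit false

namespace Pool.Agent.Helper17.OD.PkLM0

open Set

theorem dmap_iff (h : G_MAPT.{2, 2}) {a : O} {f : O → O} (hf : StrictMonoOn f (Iio a)) {b : O}
    (hb : b < a) {t : T} (ht : t ∈ D (Iio a)) : t.map f ∈ D (Iio (f b)) ↔ t ∈ D (Iio b) := by
  obtain ⟨hl, -⟩ := h O O f (Iio a) hf
  show (t.map f).leaves ⊆ Iio (f b) ↔ t.leaves ⊆ Iio b
  rw [hl t]
  constructor
  · intro hh x hx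
    exact (hf.lt_iff_lt (ht hx) hb).1 (hh ⟨x, hx, rfl⟩)
  · rintro hh _ ⟨x, hx, rfl⟩
    exact (hf.lt_iff_lt (ht hx) hb).2 (hh hx)

theorem dmap (h : G_MAPT.{2, 2}) {a a' : O} {f : O → O} (hf : StrictMonoOn f (Iio a))
    (hr : ∀ x < a, f x < a') {t : T} (ht : t ∈ D (Iio a)) : t.map f ∈ D (Iio a') := by
  obtain ⟨hl, -⟩ := h O O f (Iio a) hf
  show (t.map f).leaves ⊆ Iio a'
  rw [hl t]
  rintro _ ⟨x, hx, rfl⟩
  exact hr x (ht hx)

/-- The abstract limit lemma. -/
theorem absl (hM : G_MAPT.{2, 2}) (hT : G_TVM.{2, 2}) {ι : Type*} (a : ι → O) (f : ι → O → O)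
    (a' : O) (C : ι → Code → Prop)
    (hf : ∀ i, StrictMonoOn (f i) (Iio (a i)))
    (hr : ∀ i, ∀ x < a i, f i x < a')
    (hlow : ∀ i, ∀ b < a i, ∀ e ∈ D (Iio b), ∀ c : Code,
      (Tru b c e ↔ Tru (f i b) c (e.map (f i))))
    (h5 : ∀ i (c d : Code), C i (.pr (.nat 5) (.pr c d)) → C i c ∧ C i d)
    (h6 : ∀ i (c : Code), C i (.pr (.nat 6) c) → C i c)
    (hq : ∀ i, ∀ e ∈ D (Iio (a i)), ∀ y ∈ D (Iio a'), ∃ j, ∃ e' ∈ D (Iio (a j)),
      ∃ x ∈ D (Iio (a j)), x.map (f j) = y ∧ e'.map (f j) = e.map (f i) ∧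
      (∀ c, C i c → C j c) ∧ ∀ c, C i c → (Tru (a j) c e' → Tru (a i) c e)) :
    ∀ (n : ℕ) (c : Code), c.height ≤ n → ∀ i, C i c → ∀ e ∈ D (Iio (a i)),
      (Tru (a i) c e ↔ Tru a' c (e.map (f i))) := by
  intro n
  induction n with
  | zero =>
    intro c hc i _ e he
    rw [tru_eq (a i), tru_eq a']
    rcases c with k | k | ⟨c1, c2⟩
    · simp only [stp]
    · exact k.elim
    · simp only [Tr.height] at hc
      omega
  | succ n ih =>
    intro c hc i hCi e he
    obtain ⟨hl, hfs, hinj, hlt, hord, hmem, hoc, hoc2, hran, hD⟩ := hM O O (f i) (Iio (a i)) (hf i)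
    have htv : ∀ s : Code, tval s (e.map (f i)) = (tval s e).map (f i) :=
      fun s => (hT O O (f i) s e).1
    have htl : ∀ s : Code, tval s e ∈ D (Iio (a i)) := fun s => ((hT O O (f i) s e).2).trans he
    rw [tru_eq (a i), tru_eq a']
    rcases c with k | k | ⟨c1, c2⟩
    · simp only [stp]
    · exact k.elim
    rcases c1 with k | k | ⟨c11, c12⟩
    · rcases k with _ | _ | _ | _ | _ | _ | _ | k
      · -- 0
        rcases c2 with k | k | ⟨s, t⟩
        · simp [stp]
        · exact k.elim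
        · simp only [stp]
          rw [htv, htv]
          exact ⟨fun h => by rw [h], fun h => hinj _ (htl s) _ (htl t) h⟩
      · -- 1
        rcases c2 with k | k | ⟨s, t⟩
        · simp [stp]
        · exact k.elim
        · rw [stp, stp]
          rw [htv, htv]
          exact (hlt _ (htl s) _ (htl t)).symm
      · -- 2
        rw [stp, stp]
        rw [htv]
        exact (hord _).symm
      · -- 3
        rcases c2 with k | k | ⟨s, t⟩
        · simp [stp]
        · exact k.elim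
        · rw [stp, stp]
          rw [htv, htv]
          exact (hmem _ (htl s) _ (htl t)).symm
      · -- 4
        rcases c2 with k | k | ⟨s, t⟩
        · simp [stp]
        · exact k.elim
        rcases t with k | k | ⟨u, v⟩
        · simp [stp]
        · exact k.elim
        · rw [stp, stp]
          rw [htv, htv, htv]
          constructor
          · rintro ⟨b₀, c₀, h1, h2, h3, h4, -, h5'⟩
            refine ⟨f i b₀, c₀, ?_, hr i b₀ h2, ?_, ?_, hr i b₀ h2, ?_⟩
            · rw [h1]; rfl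
            · rw [h3, hoc]
            · exact (dmap_iff hM (hf i) h2 (htl v)).2 h4
            · exact (hlow i b₀ h2 _ h4 c₀).1 h5'
          · rintro ⟨β, c₀, h1, h2, h3, h4, -, h5'⟩
            obtain ⟨b₀, hb0, rfl⟩ : ∃ b₀, tval s e = .ord b₀ ∧ β = f i b₀ := by
              rcases hs : tval s e with k | k | ⟨x, y⟩
              · rw [hs] at h1
                simp [Tr.map] at h1
              · rw [hs] at h1
                refine ⟨k, rfl, ?_⟩
                simp only [Tr.map, Tr.ord.injEq] at h1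
                exact h1.symm
              · rw [hs] at h1
                simp [Tr.map] at h1
            have hb0b : b₀ < a i := by
              have := htl s
              rw [hb0] at this
              exact this (mem_singleton b₀)
            have h4' := (dmap_iff hM (hf i) hb0b (htl v)).1 h4
            exact ⟨b₀, c₀, hb0, hb0b, (hoc2 _ _).1 h3, h4', hb0b, (hlow i b₀ hb0b _ h4' c₀).2 h5'⟩
      · -- 5
        rcases c2 with k | k | ⟨φ, ψ⟩
        · simp [stp]
        · exact k.elim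
        · simp only [Tr.height] at hc
          rw [stp, stp, ← tru_eq, ← tru_eq]
          obtain ⟨hC1, hC2⟩ := h5 i φ ψ hCi
          rw [ih φ (by omega) i hC1 e he, ih ψ (by omega) i hC2 e he]
      · -- 6
        simp only [Tr.height] at hc
        have hC1 := h6 i c2 hCi
        constructor
        · rw [stp, stp, ← tru_eq, ← tru_eq]
          rintro ⟨x, hx, h⟩
          refine ⟨x.map (f i), dmap hM (hf i) (hr i) hx, ?_⟩
          exact (ih c2 (by omega) i hC1 _ (pr_mem.2 ⟨hx, he⟩)).1 h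
        · intro h
          rw [stp, ← tru_eq] at h
          obtain ⟨y, hy, h⟩ := h
          obtain ⟨j, e', he', x, hx, hxy, hee, hCC, hTT⟩ := hq i e he y hy
          have h7 : Tru (a j) c2 (.pr x e') := by
            refine (ih c2 (by omega) j (hCC _ hC1) _ (pr_mem.2 ⟨hx, he'⟩)).2 ?_
            show Tru a' c2 (.pr (x.map (f j)) (e'.map (f j)))
            rw [hxy, hee]
            exact h
          rw [← tru_eq]
          refine hTT _ hCi ?_
          rw [tru_eq (a j), stp, ← tru_eq]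
          exact ⟨x, hx, h7⟩
      · simp [stp]
    · exact k.elim
    · simp [stp]

theorem mle_trans (hO : G_LTO.{2}) {M M' M'' : T} (h : mle M M') (h' : mle M' M'') :
    mle M M'' := by
  obtain ⟨hirr, htr, htri⟩ := hO O
  obtain ⟨h1, h2, h3⟩ := h
  obtain ⟨k1, k2, k3⟩ := h'
  refine ⟨h1.trans k1, ?_, h3.trans k3⟩
  rcases h2 with h2 | ⟨h2, h2'⟩
  · rcases k2 with k2 | ⟨k2, k2'⟩
    · exact Or.inl (htr _ _ _ h2 k2)
    · rw [← k2]; exact Or.inl h2
  · rcases k2 with k2 | ⟨k2, k2'⟩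
    · rw [h2]; exact Or.inl k2
    · refine Or.inr ⟨h2.trans k2, fun hh => ?_⟩
      -- u'' < u, u ≤ u', u' ≤ u''
      rcases htri (mQ M).snd (mQ M').snd with h | h | h
      · exact k2' (htr _ _ _ hh h)
      · rw [h] at hh; exact k2' hh
      · exact h2' h

theorem thm (h1 : G_MAPT.{2, 2}) (h2 : G_TVM.{2, 2}) (h3 : G_LTO.{2}) (h5 : G_HLE.{2}) :
    G_LM0 := by
  intro k I mt g l hS hL
  obtain ⟨hirr, htr, htri⟩ := h3 O
  obtain ⟨-, -, -, hsub, -⟩ := h5 O
  -- the shape of the mice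
  have hda : ∀ M ∈ I, mD (mt M) ≤ mA (mt M) := by
    intro M hM
    obtain ⟨a, φ, u, d, p, hm, -, hd, -, -⟩ := hS.ms M hM
    rw [hm]; exact hd
  have hqq : ∀ M ∈ I, (mQ (mt M)).fst = (mQ M).fst := by
    intro M hM
    obtain ⟨a, φ, u, d, p, hm, hq, hd, -, -⟩ := hS.ms M hM
    rw [hm, hq]; rfl
  have hav : ∀ M ∈ I, ∀ (φ : Code) (e : T), av (mQ (mt M)) φ e →
      (Tr.ofCode φ = (mQ (mt M)).fst ∨ (Tr.ofCode φ).lt (mQ (mt M)).fst) := by
    intro M hM φ e h
    obtain ⟨a, φ₀, u, d, p, hm, hq, hd, -, -⟩ := hS.ms M hM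
    rw [hm] at h ⊢
    rcases h with h | h
    · exact Or.inr h
    · exact Or.inl h.1
  have hCC : ∀ M ∈ I, ∀ M' ∈ I, mle M M' → ∀ c : Code,
      (Tr.ofCode c = (mQ (mt M)).fst ∨ (Tr.ofCode c).lt (mQ (mt M)).fst) →
      (Tr.ofCode c = (mQ (mt M')).fst ∨ (Tr.ofCode c).lt (mQ (mt M')).fst) := by
    intro M hM M' hM' hle c hc
    rw [hqq M hM] at hc
    rw [hqq M' hM']
    rcases hle.2.1 with h | h
    · rcases hc with hc | hc
      · rw [← hc] at h; exact Or.inr h
      · exact Or.inr (htr _ _ _ hc h)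
    · rw [← h.1]; exact hc
  -- (1)
  have c1 : ∀ M ∈ I, ∀ M' ∈ I, mle M M' → ∀ t t' : T, PJ (mt M) (mt M') t t' →
      t.map (g M) = t'.map (g M') := by
    intro M hM M' hM' hle t
    have him := hS.im M hM M' hM' hle
    induction t with
    | nat n =>
      intro t' h
      rw [← him.fn _ _ _ (PJ.nat n) h]; rfl
    | ord x =>
      intro t' h
      have ho := him.ord _ _ h trivial
      rcases t' with n | x' | ⟨s, t⟩
      · exact ho.elim
      · show Tr.ord _ = Tr.ord _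
        rw [hL.comm M hM M' hM' hle x x' h]
      · exact ho.elim
    | pr s t hs ht =>
      intro t' h
      have hd := pr_mem.1 (him.dom _ _ h).1
      obtain ⟨s', hs'⟩ := him.tot s hd.1
      obtain ⟨t'', ht''⟩ := him.tot t hd.2
      rw [← him.fn _ _ _ (PJ.pr hs' ht'') h]
      show Tr.pr _ _ = Tr.pr _ _
      rw [hs _ hs', ht _ ht'']
  -- transport
  have tr1 : ∀ M ∈ I, ∀ M' ∈ I, mle M M' → ∀ t ∈ D (Iio (mA (mt M))),
      ∃ t' ∈ D (Iio (mA (mt M'))), PJ (mt M) (mt M') t t' ∧ t'.map (g M') = t.map (g M) := by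
    intro M hM M' hM' hle t ht
    have him := hS.im M hM M' hM' hle
    obtain ⟨t', ht'⟩ := him.tot t ht
    exact ⟨t', (him.dom _ _ ht').2, ht', (c1 M hM M' hM' hle t t' ht').symm⟩
  have tr2 : ∀ M ∈ I, ∀ M' ∈ I, mle M M' → ∀ b < mA (mt M),
      ∃ b' < mA (mt M'), PJ (mt M) (mt M') (.ord b) (.ord b') ∧ g M' b' = g M b := by
    intro M hM M' hM' hle b hb
    have him := hS.im M hM M' hM' hle
    obtain ⟨t', ht', hp, hg⟩ := tr1 M hM M' hM' hle (.ord b) (ord_mem.2 hb)
    have ho := him.ord _ _ hp trivial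
    rcases t' with n | x' | ⟨s, t⟩
    · exact ho.elim
    · exact ⟨x', ord_mem.1 ht', hp, (hL.comm M hM M' hM' hle b x' hp).symm⟩
    · exact ho.elim
  -- reflexivity and onto
  have onto : ∀ y ∈ D (Iio l), ∀ M ∈ I, ∃ M' ∈ I, mle M M' ∧
      ∃ x ∈ D (Iio (mA (mt M'))), x.map (g M') = y := by
    intro y
    induction y with
    | nat n =>
      intro _ M hM
      obtain ⟨M'', hM'', hle, -⟩ := hS.dir M hM M hM
      exact ⟨M'', hM'', hle, .nat n, nat_mem _ _, rfl⟩
    | ord y =>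
      intro hy M hM
      obtain ⟨M₁, hM₁, x, hx, hxy⟩ := hL.onto y (ord_mem.1 hy)
      obtain ⟨M'', hM'', hle, hle'⟩ := hS.dir M hM M₁ hM₁
      obtain ⟨x', hx', -, hg⟩ := tr2 M₁ hM₁ M'' hM'' hle' x hx
      refine ⟨M'', hM'', hle, .ord x', ord_mem.2 hx', ?_⟩
      show Tr.ord _ = _
      rw [hg, hxy]
    | pr s t hs ht =>
      intro hy M hM
      have hy' := pr_mem.1 hy
      obtain ⟨M₁, hM₁, hle₁, x₁, hx₁, hxs⟩ := hs hy'.1 M hM
      obtain ⟨M₂, hM₂, hle₂, x₂, hx₂, hxt⟩ := ht hy'.2 M₁ hM₁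
      obtain ⟨x₁', hx₁', -, hg⟩ := tr1 M₁ hM₁ M₂ hM₂ hle₂ x₁ hx₁
      refine ⟨M₂, hM₂, mle_trans h3 hle₁ hle₂, .pr x₁' x₂, pr_mem.2 ⟨hx₁', hx₂⟩, ?_⟩
      show Tr.pr _ _ = _
      rw [hg, hxs, hxt]
  -- (2)
  have c2 : ∀ β : O, ∀ M ∈ I, ∀ b < mA (mt M), g M b = β → ∀ e ∈ D (Iio b), ∀ c : Code,
      (Tru b c e ↔ Tru (g M b) c (e.map (g M))) := by
    intro β
    induction β using WellFoundedLT.induction with
    | ind β ihβ =>
      intro M hM b hb hgb e he c
      have key := absl h1 h2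
        (ι := {p : T × O // p.1 ∈ I ∧ p.2 < mA (mt p.1) ∧ g p.1 p.2 = β})
        (fun p => p.1.2) (fun p => g p.1.1) β (fun _ _ => True)
        (fun p => (hL.mono p.1.1 p.2.1).mono (Iio_subset_Iio p.2.2.1.le))
        (fun p x hx => by
          have := hL.mono p.1.1 p.2.1 (hx.trans p.2.2.1) p.2.2.1 hx
          rw [p.2.2.2] at this
          exact this)
        (fun p x hx e he c => by
          have hlt := hL.mono p.1.1 p.2.1 (hx.trans p.2.2.1) p.2.2.1 hx
          rw [p.2.2.2] at hlt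
          exact ihβ (g p.1.1 x) hlt p.1.1 p.2.1 x (hx.trans p.2.2.1) rfl e he c)
        (fun _ _ _ _ => ⟨trivial, trivial⟩) (fun _ _ _ => trivial)
        (by
          rintro ⟨⟨M, b⟩, hM, hb, hgb⟩ e he y hy
          have hb' : b < mA (mt M) := hb
          have hgb' : g M b = β := hgb
          have hM' : M ∈ I := hM
          have he' : e ∈ D (Iio b) := he
          have hβl : β < l := by rw [← hgb']; exact hL.rng M hM b hb'
          obtain ⟨M', hM'', hle, x, hx, hxy⟩ := onto y (D_mono (Iio_subset_Iio hβl.le) hy) M hM'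
          obtain ⟨b', hb1, hb2, hb3⟩ := tr2 M hM M' hM'' hle b hb'
          have him := hS.im M hM M' hM'' hle
          obtain ⟨e', he1, he2, he3⟩ := tr1 M hM M' hM'' hle e
            (D_mono (Iio_subset_Iio hb'.le) he')
          refine ⟨⟨⟨M', b'⟩, hM'', hb1, hb3.trans hgb'⟩, e', him.low _ _ _ _ hb2 he2 he', x, ?_,
            hxy, he3, fun _ _ => trivial, fun c _ h => ?_⟩
          · refine (dmap_iff h1 (hL.mono M' hM'') hb1 hx).1 ?_
            rw [hxy, hb3, hgb']
            exact hy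
          · exact (him.tru _ _ _ _ c hb2 he2 he').2 h)
        c.height c le_rfl ⟨⟨M, b⟩, hM, hb, hgb⟩ trivial e he
      rw [hgb]
      exact key
  have c2' : ∀ M ∈ I, ∀ b < mA (mt M), ∀ e ∈ D (Iio b), ∀ c : Code,
      (Tru b c e ↔ Tru (g M b) c (e.map (g M))) :=
    fun M hM b hb e he c => c2 (g M b) M hM b hb rfl e he c
  -- (3)
  have c3 : ∀ M ∈ I, ∀ e ∈ D (Iio (mA (mt M))), ∀ c : Code,
      (Tr.ofCode c = (mQ (mt M)).fst ∨ (Tr.ofCode c).lt (mQ (mt M)).fst) →
      (Tru (mA (mt M)) c e ↔ Tru l c (e.map (g M))) := by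
    intro M hM e he c hc
    exact absl h1 h2 (ι := {M : T // M ∈ I}) (fun M => mA (mt M.1)) (fun M => g M.1) l
      (fun M c => Tr.ofCode c = (mQ (mt M.1)).fst ∨ (Tr.ofCode c).lt (mQ (mt M.1)).fst)
      (fun M => hL.mono M.1 M.2) (fun M => hL.rng M.1 M.2)
      (fun M => c2' M.1 M.2)
      (fun M c d h => by
        have h1' : (Tr.ofCode c : T).lt (Tr.ofCode (.pr (.nat 5) (.pr c d))) :=
          htr _ _ _ (hsub (Tr.ofCode c) (Tr.ofCode d)).1
            (hsub (Tr.nat 5) (.pr (Tr.ofCode c) (Tr.ofCode d))).2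
        have h2' : (Tr.ofCode d : T).lt (Tr.ofCode (.pr (.nat 5) (.pr c d))) :=
          htr _ _ _ (hsub (Tr.ofCode c) (Tr.ofCode d)).2
            (hsub (Tr.nat 5) (.pr (Tr.ofCode c) (Tr.ofCode d))).2
        rcases h with h | h
        · rw [← h]; exact ⟨Or.inr h1', Or.inr h2'⟩
        · exact ⟨Or.inr (htr _ _ _ h1' h), Or.inr (htr _ _ _ h2' h)⟩)
      (fun M c h => by
        have h1' : (Tr.ofCode c : T).lt (Tr.ofCode (.pr (.nat 6) c)) :=
          (hsub (Tr.nat 6) (Tr.ofCode c)).2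
        rcases h with h | h
        · rw [← h]; exact Or.inr h1'
        · exact Or.inr (htr _ _ _ h1' h))
      (by
        rintro ⟨M, hM⟩ e he y hy
        obtain ⟨M', hM', hle, x, hx, hxy⟩ := onto y hy M hM
        have him := hS.im M hM M' hM' hle
        obtain ⟨e', he1, he2, he3⟩ := tr1 M hM M' hM' hle e he
        refine ⟨⟨M', hM'⟩, e', he1, x, hx, hxy, he3, fun c hc => hCC M hM M' hM' hle c hc,
          fun c hc h => ?_⟩
        exact (him.top _ _ c he2 hc).2 h)
      c.height c le_rfl ⟨M, hM⟩ hc e he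
  refine ⟨c1, c2', c3, ?_, ?_, ?_, ?_⟩
  · -- (4)
    intro M hM b hb e he x hx φ hw
    obtain ⟨w1, w2, w3⟩ := hw
    refine ⟨(dmap_iff h1 (hL.mono M hM) hb hx).2 w1,
      (c2' M hM b hb _ (pr_mem.2 ⟨w1, he⟩) φ).1 w2, ?_⟩
    intro y hy hy2 hyx
    have hgl : g M b < l := hL.rng M hM b hb
    obtain ⟨M', hM', hle, y', hy', hyy⟩ := onto y (D_mono (Iio_subset_Iio hgl.le) hy) M hM
    have him := hS.im M hM M' hM' hle
    obtain ⟨b', hb1, hb2, hb3⟩ := tr2 M hM M' hM' hle b hb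
    obtain ⟨e', he1, he2, he3⟩ := tr1 M hM M' hM' hle e (D_mono (Iio_subset_Iio hb.le) he)
    obtain ⟨x', hx1, hx2, hx3⟩ := tr1 M hM M' hM' hle x hx
    obtain ⟨v1, v2, v3⟩ := him.isw _ _ _ _ _ _ φ hb2 he2 he hx2 ⟨w1, w2, w3⟩
    have hy'b : y' ∈ D (Iio b') := by
      refine (dmap_iff h1 (hL.mono M' hM') hb1 hy').1 ?_
      rw [hyy, hb3]
      exact hy
    refine v3 y' hy'b ?_ ?_
    · refine (c2' M' hM' b' hb1 _ (pr_mem.2 ⟨hy'b, him.low _ _ _ _ hb2 he2 he⟩) φ).2 ?_
      show Tru (g M' b') φ (.pr (y'.map (g M')) (e'.map (g M')))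
      rw [hb3, hyy, he3]
      exact hy2
    · refine ((h1 O O (g M') (Iio (mA (mt M'))) (hL.mono M' hM')).2.2.2.1 y' hy' x' hx1).1 ?_
      rw [hyy, hx3]
      exact hyx
  · -- (5)
    intro M hM e he x hx φ hq hw
    obtain ⟨w1, w2, w3⟩ := hw
    refine ⟨dmap h1 (hL.mono M hM) (hL.rng M hM) hx,
      (c3 M hM _ (pr_mem.2 ⟨hx, he⟩) φ (hav M hM φ e hq)).1 w2, ?_⟩
    intro y hy hy2 hyx
    obtain ⟨M', hM', hle, y', hy', hyy⟩ := onto y hy M hM
    have him := hS.im M hM M' hM' hle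
    obtain ⟨e', he1, he2, he3⟩ := tr1 M hM M' hM' hle e he
    obtain ⟨x', hx1, hx2, hx3⟩ := tr1 M hM M' hM' hle x hx
    obtain ⟨v1, v2, v3⟩ := him.wit _ _ _ _ φ he2 hx2 hq ⟨w1, w2, w3⟩
    refine v3 y' hy' ?_ ?_
    · refine (c3 M' hM' _ (pr_mem.2 ⟨hy', he1⟩) φ
        (hCC M hM M' hM' hle φ (hav M hM φ e hq))).2 ?_
      show Tru l φ (.pr (y'.map (g M')) (e'.map (g M')))
      rw [hyy, he3]
      exact hy2
    · refine ((h1 O O (g M') (Iio (mA (mt M'))) (hL.mono M' hM')).2.2.2.1 y' hy' x' hx1).1 ?_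
      rw [hyy, hx3]
      exact hyx
  · -- (6)
    intro M hM x
    induction x using WellFoundedLT.induction with
    | ind x ih =>
      intro hx
      have hxa : x < mA (mt M) := lt_of_lt_of_le hx (hda M hM)
      have hge : x ≤ g M x := by
        by_contra hlt
        push Not at hlt
        -- `g M x < x`, so `g M (g M x) = g M x`
        have e1 := ih (g M x) hlt (hlt.trans hx)
        have e2 := hL.mono M hM (hlt.trans hxa) hxa hlt
        rw [e1] at e2
        exact lt_irrefl _ e2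
      rcases hge.lt_or_eq with hlt | heq
      · exfalso
        obtain ⟨M', hM', hle, z, hz, hzx⟩ := onto (.ord x)
          (ord_mem.2 (hlt.trans (hL.rng M hM x hxa))) M hM
        rcases z with n | z | ⟨s, t⟩
        · simp [Tr.map] at hzx
        · have hz' : z < mA (mt M') := ord_mem.1 hz
          have hzx' : g M' z = x := by simpa [Tr.map] using hzx
          have hgx : g M x = g M' x := hL.comm M hM M' hM' hle x x (PJ.low hx)
          have hxa' : x < mA (mt M') :=
            ord_mem.1 ((hS.im M hM M' hM' hle).dom _ _ (PJ.low hx)).2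
          have hzlt : z < x := by
            rw [← (hL.mono M' hM').lt_iff_lt hz' hxa', hzx', ← hgx]
            exact hlt
          have e1 := ih z hzlt (hzlt.trans hx)
          have e2 : g M z = g M' z := hL.comm M hM M' hM' hle z z (PJ.low (hzlt.trans hx))
          rw [e1, hzx'] at e2
          exact absurd e2 hzlt.ne
        · simp [Tr.map] at hzx
      · exact heq.symm
  · -- (7)
    intro M hM M' hM'
    obtain ⟨M'', hM'', hle, hle'⟩ := hS.dir M hM M' hM'
    rw [c1 M hM M'' hM'' hle _ _ PJ.par, c1 M' hM' M'' hM'' hle' _ _ PJ.par]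

end Pool.Agent.Helper17.OD.PkLM0
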